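import Pool.Agent.H421Z.Gon.Defs
import Pool.Agent.H421Z.Gon.Data

set_option autoImplicit false

namespace Pool.Agent.H421Z.Gon

open Finset

section General

variable {V E : Type} [Fintype E] [DecidableEq V]

theorem lap_sub (G : MultiGraph V E) (f g : V → ℤ) (v : V) :
    G.lap (fun x => f x - g x) v = G.lap f v - G.lap g v := by
  unfold MultiGraph.lap
  rw [← sum_sub_distrib]
  apply sum_congr rfl
  intro e _
  split_ifs <;> ring

theorem lap_sum [Fintype V] (G : MultiGraph V E) (f : V → ℤ) : ∑ v, G.lap f v = 0 := by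
  unfold MultiGraph.lap
  rw [sum_comm]
  apply sum_eq_zero
  intro e _
  rw [sum_add_distrib, sum_ite_eq, sum_ite_eq]
  simp

/-- Number of edges from `u` to vertices of lower rank. -/
def lowdeg (G : MultiGraph V E) (ρ : V → ℕ) (u : V) : ℤ :=
  ∑ e : E, ((if G.src e = u then (if ρ (G.tgt e) < ρ u then 1 else 0) else 0) +
    (if G.tgt e = u then (if ρ (G.src e) < ρ u then 1 else 0) else 0))

theorem not_reach [Fintype V] (G : MultiGraph V E) (D : V → ℤ) (v : V) (ρ : V → ℕ) (hv : D v ≤ 0)
    (hρ : ∀ u, u ≠ v → D u < lowdeg G ρ u) (f : V → ℤ)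
    (hf : ∀ w, 0 ≤ D w - (if w = v then 1 else 0) - G.lap f w) : False := by
  obtain ⟨u0, _, hu0⟩ := Finset.exists_max_image (univ : Finset V) f ⟨v, mem_univ v⟩
  obtain ⟨u, hu, hmin⟩ := Finset.exists_min_image (univ.filter (fun x => f x = f u0)) ρ
    ⟨u0, by simp⟩
  have hfu : f u = f u0 := (mem_filter.mp hu).2
  have hle : ∀ w, f w ≤ f u := fun w => hfu ▸ hu0 w (mem_univ w)
  have hlt : ∀ w, ρ w < ρ u → f w < f u := by
    intro w hw
    rcases (hle w).lt_or_eq with h | h
    · exact h
    · exact absurd (hmin w (mem_filter.mpr ⟨mem_univ w, h.trans hfu⟩)) (not_le.mpr hw)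
  have key : lowdeg G ρ u ≤ G.lap f u := by
    unfold lowdeg MultiGraph.lap
    apply sum_le_sum
    intro e _
    apply add_le_add
    · split_ifs with h1 h2
      · have := hlt _ h2; omega
      · have := hle (G.tgt e); omega
      · exact le_rfl
    · split_ifs with h1 h2
      · have := hlt _ h2; omega
      · have := hle (G.src e); omega
      · exact le_rfl
  have h0 : 0 ≤ lowdeg G ρ u := by
    unfold lowdeg
    apply sum_nonneg
    intro e _
    apply add_nonneg <;> split_ifs <;> norm_num
  have h1 := hf u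
  by_cases huv : u = v
  · rw [if_pos huv] at h1
    rw [← huv] at hv
    omega
  · rw [if_neg huv] at h1
    have := hρ u huv
    omega

end General

/-- The edges of the example. -/
def edges : List (Fin 11 × Fin 11) :=
  [(2, 6), (3, 4), (1, 5), (0, 9), (7, 8), (0, 3), (0, 5), (1, 10), (1, 8), (10, 6), (10, 7),
   (2, 3), (2, 3), (2, 3), (4, 5), (4, 5), (4, 5), (6, 7), (6, 7), (6, 7), (8, 9), (8, 9), (8, 9)]

/-- The example. -/
def GG : MultiGraph (Fin 11) (Fin 23) where
  src e := (edges.getD e (0, 1)).1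
  tgt e := (edges.getD e (0, 1)).2
  ne := by decide

theorem GG_conn : GG.Connected := by
  have hsym : ∀ a b : Fin 11, (∃ e : Fin 23, (GG.src e = a ∧ GG.tgt e = b) ∨ (GG.src e = b ∧ GG.tgt e = a)) →
      (∃ e : Fin 23, (GG.src e = b ∧ GG.tgt e = a) ∨ (GG.src e = a ∧ GG.tgt e = b)) := by
    rintro a b ⟨e, h⟩
    exact ⟨e, h.symm⟩
  set r : Fin 11 → Fin 11 → Prop :=
    fun a b => ∃ e : Fin 23, (GG.src e = a ∧ GG.tgt e = b) ∨ (GG.src e = b ∧ GG.tgt e = a) with hr
  have s : ∀ a b, r a b → Relation.ReflTransGen r a b := fun a b h => Relation.ReflTransGen.single h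
  have h3 : Relation.ReflTransGen r 0 3 := s _ _ (by simp only [hr]; decide)
  have h5 : Relation.ReflTransGen r 0 5 := s _ _ (by simp only [hr]; decide)
  have h9 : Relation.ReflTransGen r 0 9 := s _ _ (by simp only [hr]; decide)
  have h2 : Relation.ReflTransGen r 0 2 := h3.tail (by simp only [hr]; decide)
  have h4 : Relation.ReflTransGen r 0 4 := h3.tail (by simp only [hr]; decide)
  have h1 : Relation.ReflTransGen r 0 1 := h5.tail (by simp only [hr]; decide)
  have h8 : Relation.ReflTransGen r 0 8 := h9.tail (by simp only [hr]; decide)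
  have h6 : Relation.ReflTransGen r 0 6 := h2.tail (by simp only [hr]; decide)
  have h7 : Relation.ReflTransGen r 0 7 := h8.tail (by simp only [hr]; decide)
  have h10 : Relation.ReflTransGen r 0 10 := h1.tail (by simp only [hr]; decide)
  have h0 : ∀ v, Relation.ReflTransGen r 0 v := by
    intro v
    fin_cases v
    exacts [Relation.ReflTransGen.refl, h1, h2, h3, h4, h5, h6, h7, h8, h9, h10]
  have hrev : ∀ v, Relation.ReflTransGen r 0 v → Relation.ReflTransGen r v 0 := by
    intro v hv
    induction hv with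
    | refl => exact Relation.ReflTransGen.refl
    | tail _ hbc ih => exact Relation.ReflTransGen.head (hsym _ _ hbc) ih
  intro u v
  exact (hrev u (h0 u)).trans (h0 v)

/-- All lists of length `n` with sum `k`. -/
def comps : ℕ → ℕ → List (List ℕ)
  | 0, k => if k = 0 then [[]] else []
  | n + 1, k => (List.range (k + 1)).flatMap (fun a => (comps n (k - a)).map (fun l => a :: l))

theorem mem_comps (l : List ℕ) : l ∈ comps l.length l.sum := by
  induction l with
  | nil => simp [comps]
  | cons a l ih =>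
    simp only [List.length_cons, List.sum_cons, comps, List.mem_flatMap, List.mem_range, List.mem_map]
    refine ⟨a, by omega, l, ?_, rfl⟩
    rw [Nat.add_sub_cancel_left]
    exact ih

/-- The divisor coded by a list. -/
def dv (l : List ℕ) (w : Fin 11) : ℤ := (l.getD w 0 : ℕ) + (if w = 0 then 1 else 0)

/-- Target vertex of a certificate. -/
def cv (c : ℕ) : Fin 11 := ⟨c % 16 % 11, Nat.mod_lt _ (by norm_num)⟩

/-- Firing script of a certificate. -/
def cf (c : ℕ) (i : Fin 11) : ℤ := ((c / 16 ^ (1 + (i : ℕ)) % 16 : ℕ) : ℤ)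

/-- Burning order of a certificate. -/
def cr (c : ℕ) (i : Fin 11) : ℕ := c / 16 ^ (12 + (i : ℕ)) % 16

/-- Check of a certificate. -/
def ok (l : List ℕ) (c : ℕ) : Bool :=
  decide (dv l (cv c) - GG.lap (cf c) (cv c) ≤ 0 ∧
    ∀ u, u ≠ cv c → dv l u - GG.lap (cf c) u < lowdeg GG (cr c) u)

/-- Check of all certificates. -/
def allOk : List (List ℕ) → List ℕ → Bool
  | [], _ => true
  | _ :: _, [] => false
  | l :: L, c :: C => ok l c && allOk L C

theorem allOk_spec (L : List (List ℕ)) (C : List ℕ) (h : allOk L C = true) :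
    ∀ l ∈ L, ∃ c, ok l c = true := by
  induction L generalizing C with
  | nil => simp
  | cons l L ih =>
    cases C with
    | nil => simp [allOk] at h
    | cons c C =>
      simp only [allOk, Bool.and_eq_true] at h
      intro l' hl'
      rcases List.mem_cons.mp hl' with rfl | h2
      · exact ⟨c, h.1⟩
      · exact ih C h.2 l' h2

/-- Index of a vertex of the subdivision. -/
def idx : Fin 11 ⊕ (Fin 23 × Fin (3 - 1)) → ℕ
  | Sum.inl i => i
  | Sum.inr (e, j) => 11 + 2 * e + j

/-- The divisor of degree five on the subdivision. -/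
def D3 (w : Fin 11 ⊕ (Fin 23 × Fin (3 - 1))) : ℤ :=
  if idx w = 0 ∨ idx w = 11 ∨ idx w = 13 ∨ idx w = 15 ∨ idx w = 19 then 1 else 0

/-- Firing scripts on the subdivision. -/
def F3 (v w : Fin 11 ⊕ (Fin 23 × Fin (3 - 1))) : ℤ :=
  ((upCerts.getD (idx v) 0 / 16 ^ (idx w) % 16 : ℕ) : ℤ)


end Pool.Agent.H421Z.Gon
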