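import Mathlib

set_option autoImplicit false

namespace Pool.Agent.H421Z.Gon

open Finset

/-- A loopless multigraph with vertex type `V` and edge type `E`: every edge has two distinct ends
(listed in an arbitrary order); parallel edges are allowed. -/
structure MultiGraph (V E : Type) where
  /-- first end of an edge -/
  src : E → V
  /-- second end of an edge -/
  tgt : E → V
  ne : ∀ e, src e ≠ tgt e

variable {V E : Type}

section

variable [Fintype E] [DecidableEq V]

/-- The Laplacian: `(L f)(v)` is the sum over all edges at `v` of `f v` minus the value of `f` at the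
other end of the edge. -/
def MultiGraph.lap (G : MultiGraph V E) (f : V → ℤ) (v : V) : ℤ :=
  ∑ e : E, ((if G.src e = v then f v - f (G.tgt e) else 0) +
    (if G.tgt e = v then f v - f (G.src e) else 0))

/-- Equivalence of divisors: the difference lies in the image of the Laplacian. -/
def MultiGraph.Equiv (G : MultiGraph V E) (D D' : V → ℤ) : Prop :=
  ∃ f : V → ℤ, ∀ v, D' v = D v - G.lap f v

/-- `D` has rank at least one: for every vertex `v` the divisor `D - v` is equivalent to an effective
divisor. -/
def MultiGraph.RankGeOne (G : MultiGraph V E) (D : V → ℤ) : Prop :=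
  ∀ v : V, ∃ D' : V → ℤ, (∀ w, 0 ≤ D' w) ∧ G.Equiv (fun w => D w - if w = v then 1 else 0) D'

/-- The divisorial gonality: the minimum degree of an effective divisor of rank at least one. -/
noncomputable def MultiGraph.gon [Fintype V] (G : MultiGraph V E) : ℕ :=
  sInf {d : ℕ | ∃ D : V → ℤ, (∀ w, 0 ≤ D w) ∧ ∑ w, D w = (d : ℤ) ∧ G.RankGeOne D}

end

/-- The `i`-th point, `0 ≤ i ≤ k`, of the path of `k` edges which replaces the edge `e`. -/
def MultiGraph.pt (G : MultiGraph V E) (k : ℕ) (e : E) (i : ℕ) : V ⊕ (E × Fin (k - 1)) :=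
  if i = 0 then Sum.inl (G.src e)
  else if h : i - 1 < k - 1 then Sum.inr (e, ⟨i - 1, h⟩) else Sum.inl (G.tgt e)

lemma MultiGraph.pt_ne (G : MultiGraph V E) (k : ℕ) (e : E) (i : ℕ) (hi : i < k) :
    G.pt k e i ≠ G.pt k e (i + 1) := by
  unfold MultiGraph.pt
  by_cases h0 : i = 0
  · subst h0
    by_cases h1 : (0 : ℕ) < k - 1
    · simp [h1]
    · simp [h1, G.ne e]
  · have h1 : i - 1 < k - 1 := by omega
    by_cases h2 : i < k - 1
    · simp only [h0, ↓reduceIte, h1, ↓reduceDIte, Nat.add_eq_zero_iff, one_ne_zero, and_false,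
        add_tsub_cancel_right, h2, ne_eq, Sum.inr.injEq, Prod.mk.injEq, Fin.mk.injEq, true_and]
      omega
    · simp [h0, h1, h2]

/-- The graph `G^(k)`: every edge is replaced by a path of `k` edges, through `k - 1` new vertices. -/
def MultiGraph.subdiv (G : MultiGraph V E) (k : ℕ) : MultiGraph (V ⊕ (E × Fin (k - 1))) (E × Fin k) where
  src x := G.pt k x.1 x.2
  tgt x := G.pt k x.1 (x.2 + 1)
  ne x := G.pt_ne k x.1 x.2 x.2.2

/-- The graph is connected: any two vertices are joined by a walk. -/
def MultiGraph.Connected (G : MultiGraph V E) : Prop :=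
  ∀ u v : V, Relation.ReflTransGen
    (fun a b => ∃ e : E, (G.src e = a ∧ G.tgt e = b) ∨ (G.src e = b ∧ G.tgt e = a)) u v

end Pool.Agent.H421Z.Gon
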