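import Pool.Agent.H421Z.Gon.Basic

set_option autoImplicit false

namespace Pool.Agent.H421Z.Gon

open Finset

theorem low_check : allOk (comps 11 4) lowCerts = true := by decide +kernel


end Pool.Agent.H421Z.Gon
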