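import Pool.Agent.H421Z.Gon.Basic

set_option autoImplicit false

namespace Pool.Agent.H421Z.Gon

open Finset

theorem up_check : ∀ v w, 0 ≤ D3 w - (if w = v then 1 else 0) - (GG.subdiv 3).lap (F3 v) w := by
  decide +kernel

theorem D3_deg : ∑ w, D3 w = 5 := by decide +kernel


end Pool.Agent.H421Z.Gon
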