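import Pool.Agent.H421Z.Gon.Low
import Pool.Agent.H421Z.Gon.Up

set_option autoImplicit false

namespace Pool.Agent.H421Z.Gon

open Finset

theorem low (d : ℕ) (D : Fin 11 → ℤ) (hdeg : ∑ w, D w = (d : ℤ)) (hr : GG.RankGeOne D) : 6 ≤ d := by
  by_contra hd
  obtain ⟨D1, hD1, f1, hf1⟩ := hr 0
  set n : Fin 11 → ℕ := fun w => (D1 w).toNat + (if w = 0 then 5 - d else 0) with hn
  have hsum1 : ∑ w, D1 w = (d : ℤ) - 1 := by
    rw [sum_congr rfl (fun w _ => hf1 w), sum_sub_distrib, sum_sub_distrib, lap_sum, hdeg]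
    simp
  have hnz : ∀ w, (n w : ℤ) = D1 w + (if w = 0 then (5 : ℤ) - d else 0) := by
    intro w
    simp only [hn]
    have := hD1 w
    split_ifs <;> push_cast <;> omega
  have hsumn : ∑ w, n w = 4 := by
    have : ((∑ w, n w : ℕ) : ℤ) = 4 := by
      push_cast
      rw [sum_congr rfl (fun w _ => hnz w), sum_add_distrib, hsum1]
      simp
    exact_mod_cast this
  have hmem := mem_comps (List.ofFn n)
  rw [List.length_ofFn, List.sum_ofFn, hsumn] at hmem
  obtain ⟨c, hc⟩ := allOk_spec _ _ low_check _ hmem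
  simp only [ok, decide_eq_true_eq] at hc
  obtain ⟨D2, hD2, f2, hf2⟩ := hr (cv c)
  apply not_reach GG (fun u => dv (List.ofFn n) u - GG.lap (cf c) u) (cv c) (cr c) hc.1 hc.2
    (fun x => (f2 x - f1 x) - cf c x)
  intro w
  rw [lap_sub, lap_sub]
  have e1 : dv (List.ofFn n) w = n w + (if w = 0 then 1 else 0) := by
    unfold dv
    congr 2
    rw [List.getD_eq_getElem _ _ (by simp), List.getElem_ofFn]
  have e2 := hf1 w
  have e3 := hf2 w
  have e4 := hD2 w
  have e5 := hnz w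
  rw [e1, e5]
  simp only at e2 e3
  split_ifs at * <;> omega

theorem up : (GG.subdiv 3).gon ≤ 5 := by
  apply Nat.sInf_le
  refine ⟨D3, ?_, D3_deg, ?_⟩
  · intro w
    unfold D3
    split_ifs <;> norm_num
  · intro v
    exact ⟨_, up_check v, F3 v, fun w => rfl⟩

theorem lower : 6 ≤ GG.gon := by
  have hne : {d : ℕ | ∃ D : Fin 11 → ℤ, (∀ w, 0 ≤ D w) ∧ ∑ w, D w = (d : ℤ) ∧
      GG.RankGeOne D}.Nonempty := by
    refine ⟨11, fun _ => 1, fun _ => by norm_num, by simp, ?_⟩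
    intro v
    refine ⟨fun w => 1 - if w = v then 1 else 0, fun w => by dsimp only; split_ifs <;> norm_num,
      fun _ => 0, fun w => ?_⟩
    simp [MultiGraph.lap]
  obtain ⟨D, _, hdeg, hr⟩ := Nat.sInf_mem hne
  exact low _ D hdeg hr

end Pool.Agent.H421Z.Gon
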